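import Pool.Agent.Helper13.RS.St

/-!
# Project RS (MP_924f75_nt), module TL: primes in `(x/T, x]`
-/

set_option autoImplicit false

namespace Pool.Agent.Helper19.RS

open Pool.Agent.Helper13.RS Finset

theorem Pr_eq_off (x : ℕ) (T : ℝ) :
    ∑ p ∈ Pr ((x : ℝ) / T) x, 1 / (p : ℝ) =
      Pool.Agent.Helper13.JC.offSum (fun _ => 1) 0 ((x : ℝ) / T) x := by
  unfold Pr Pool.Agent.Helper13.JC.offSum
  refine Finset.sum_congr ?_ fun _ _ => rfl
  ext p
  simp only [Finset.mem_filter]
  refine and_congr_right fun _ => and_congr_right fun hp => ?_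
  have h1 : ¬ (1 : ℤ) ≡ 0 [ZMOD (p : ℤ)] := by
    intro h
    have h2 : (p : ℤ) ∣ 1 := by
      have h3 := (Int.modEq_zero_iff_dvd).1 h
      exact h3
    have h4 : p ∣ 1 := by exact_mod_cast h2
    exact hp.one_lt.ne' (Nat.dvd_one.1 h4)
  constructor
  · intro h
    exact ⟨h, h1⟩
  · intro h
    exact h.1

theorem card_Pr_le (x : ℕ) (u : ℝ) : (Pr u x).card ≤ Nat.primeCounting x := by
  unfold Pr
  rw [Nat.primeCounting, Nat.primeCounting', Nat.count_eq_card_filter_range]
  refine Finset.card_le_card fun p hp => ?_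
  rw [Finset.mem_filter, Finset.mem_Icc, Nat.floor_natCast] at hp
  rw [Finset.mem_filter, Finset.mem_range]
  exact ⟨by omega, hp.2.1⟩

theorem hTL (h : Pool.Agent.Helper60.GP.StM1) : StTL := by
  obtain ⟨C₁, hC1, hw⟩ := Pool.Agent.Helper13.JC.window h
  obtain ⟨y₀, hy⟩ := Filter.eventually_atTop.1
    (Chebyshev.eventually_primeCounting_le (ε := 1) one_pos)
  have hl4 : 0 < Real.log 4 := Real.log_pos (by norm_num)
  refine ⟨max C₁ (Real.log 4 + 1), max y₀ 4, lt_of_lt_of_le hC1 (le_max_left _ _),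
    le_max_right _ _, ?_⟩
  intro x T hx hT hTx
  have hxy : y₀ ≤ (x : ℝ) := (le_max_left _ _).trans hx
  have hx4 : (4 : ℝ) ≤ x := (le_max_right _ _).trans hx
  have hx4' : 4 ≤ x := by exact_mod_cast hx4
  have hlx : 0 < Real.log (x : ℝ) := Real.log_pos (by linarith)
  have hlT : 0 < Real.log T := Real.log_pos (by linarith)
  constructor
  · rw [Pr_eq_off]
    refine (hw x T hx4' hT hTx (fun _ => 1) 0).trans ?_
    refine div_le_div_of_nonneg_right ?_ hlx.le
    exact mul_le_mul_of_nonneg_right (le_max_left _ _) hlT.le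
  · have h1 := hy x hxy
    rw [Nat.floor_natCast] at h1
    have h2 : ((Pr ((x : ℝ) / T) x).card : ℝ) ≤ (Nat.primeCounting x : ℝ) := by
      exact_mod_cast card_Pr_le x _
    refine h2.trans (h1.trans ?_)
    refine div_le_div_of_nonneg_right ?_ hlx.le
    exact mul_le_mul_of_nonneg_right (le_max_right _ _) (by positivity)

end Pool.Agent.Helper19.RS
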